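import Mathlib
import Pool.Agent.Lib.MP_45e1c4_co.Rate

/-!
# MP_45e1c4_co : measurable 3-colourings of the free group on two generators

There is a measurable proper 3-colouring.  The colouring which is constructed is equivariant under
all automorphisms of the 4-regular tree, uses each colour with probability one third, and is
approximated exponentially well by functions of the labels in a ball.
-/

set_option autoImplicit false

open MeasureTheory

namespace Pool.Agent.Results.MP_45e1c4_co.TreeColouring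

/-- The free group on two generators. -/
abbrev F2 : Type := FreeGroup (Fin 2)

/-- The space of labellings `[0,1]^{F2}`. -/
abbrev X : Type := F2 → unitInterval

/-- The product of the Lebesgue measures. -/
noncomputable def mu : Measure X :=
  Measure.infinitePi (fun _ : F2 => (volume : Measure unitInterval))

/-- The set `{a, a⁻¹, b, b⁻¹}`. -/
def S : Set F2 := {s | ∃ i : Fin 2, s = FreeGroup.of i ∨ s = (FreeGroup.of i)⁻¹}

/-- The Bernoulli shift: `(g • x)(d) = x(g⁻¹ d)`. -/
def act (g : F2) (x : X) : X := fun d => x (g⁻¹ * d)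

/-- The Cayley graph of `F2` for `S` (a 4-regular tree): `g` is adjacent to `g s` for `s` in `S`. -/
def Cay : SimpleGraph F2 := SimpleGraph.fromRel (fun g h => g⁻¹ * h ∈ S)

/-- The equivariant map belonging to `c`: the labelling `g ↦ c(g⁻¹ • x)` of the tree. -/
def lift (c : X → Fin 3) (x : X) : F2 → Fin 3 := fun g => c (act g⁻¹ x)

section aux

open Pool.Agent.Lib.MP_45e1c4_co

lemma gen_true (i : Fin 2) : gen (i, true) = FreeGroup.of i := rfl

lemma gen_false (i : Fin 2) : gen (i, false) = (FreeGroup.of i)⁻¹ := by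
  have h : (FreeGroup.of i : F2)⁻¹ = FreeGroup.mk [(i, false)] := by
    unfold FreeGroup.of
    rw [FreeGroup.inv_mk]
    rfl
  rw [h]
  rfl

lemma mem_S_iff (s : F2) : s ∈ S ↔ ∃ r : Dir, s = gen r := by
  constructor
  · rintro ⟨i, h | h⟩
    · exact ⟨(i, true), h⟩
    · exact ⟨(i, false), by rw [gen_false]; exact h⟩
  · rintro ⟨⟨i, b⟩, rfl⟩
    cases b
    · exact ⟨i, Or.inr (gen_false i)⟩
    · exact ⟨i, Or.inl rfl⟩

lemma inv_mem_S {s : F2} (h : s ∈ S) : s⁻¹ ∈ S := by
  obtain ⟨i, h | h⟩ := h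
  · exact ⟨i, Or.inr (by rw [h])⟩
  · exact ⟨i, Or.inl (by rw [h, inv_inv])⟩

lemma one_notMem_S : (1 : F2) ∉ S := by
  rintro ⟨i, h | h⟩
  · exact FreeGroup.of_ne_one i h.symm
  · exact FreeGroup.of_ne_one i (inv_eq_one.1 h.symm)

lemma adj_iff (g h : F2) : Cay.Adj g h ↔ g⁻¹ * h ∈ S := by
  unfold Cay
  rw [SimpleGraph.fromRel_adj]
  constructor
  · rintro ⟨-, h1 | h1⟩
    · exact h1
    · have := inv_mem_S h1
      simpa using this
  · intro h1
    refine ⟨?_, Or.inl h1⟩
    rintro rfl
    rw [inv_mul_cancel] at h1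
    exact one_notMem_S h1

lemma adj_iff' (g h : F2) : Cay.Adj g h ↔ AdjC g h := by
  rw [adj_iff, mem_S_iff]
  unfold AdjC
  constructor
  · rintro ⟨r, hr⟩
    exact ⟨r, by rw [← hr, mul_inv_cancel_left]⟩
  · rintro ⟨r, rfl⟩
    exact ⟨r, by rw [inv_mul_cancel_left]⟩

instance : IsProbabilityMeasure mu := by unfold mu; infer_instance

lemma act_mp (g : F2) : MeasurePreserving (act g) mu mu := by
  refine ⟨measurable_pi_iff.2 fun d => measurable_pi_apply _, ?_⟩
  exact Measure.map_infinitePi_infinitePi_of_inj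
    (P := fun _ : F2 => (volume : Measure unitInterval))
    (f := fun d : F2 => g⁻¹ * d) (fun a b h => mul_left_cancel h)

end aux

/-- **Measurable 3-colouring of the free group on two generators.** -/
theorem result :
    ∃ c : X → Fin 3, Measurable c ∧
      (∀ᵐ x ∂mu, ∀ s ∈ S, c x ≠ c (act s x)) ∧
      (∀ᵐ x ∂mu, ∀ g h, Cay.Adj g h → lift c x g ≠ lift c x h) ∧
      (∀ (σ : Cay ≃g Cay) (x : X), lift c (x ∘ σ) = lift c x ∘ σ) ∧
      (∀ k, mu {x | c x = k} = 1 / 3) ∧
      ∃ C : ℝ, ∀ n : ℕ, ∃ c' : X → Fin 3, Measurable c' ∧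
        (∀ x y : X, (∀ d : F2, d.norm ≤ n → x d = y d) → c' x = c' y) ∧
        mu.real {x | c' x ≠ c x} ≤ C * (99 / 100) ^ n := by
  classical
  obtain ⟨f, hf, hmap⟩ := Measure.exists_measurable_map_eq Pool.Agent.Lib.MP_45e1c4_co.nu
  have hΦ : Measurable (fun (x : X) (d : F2) => f (x d)) := by fun_prop
  have h1 : mu.map (fun x d => f (x d)) = Pool.Agent.Lib.MP_45e1c4_co.PP := by
    unfold mu
    rw [Measure.infinitePi_map_pi (fun _ : F2 => (volume : Measure unitInterval))
      (f := fun _ => f) (fun _ => hf)]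
    simp only [hmap]
    rfl
  have hmp : MeasurePreserving (fun (x : X) (d : F2) => f (x d)) mu
    Pool.Agent.Lib.MP_45e1c4_co.PP := ⟨hΦ, h1⟩
  set c : X → Fin 3 := fun x => Pool.Agent.Lib.MP_45e1c4_co.lim (fun d => f (x d)) with hc
  have hcm : Measurable c := Pool.Agent.Lib.MP_45e1c4_co.measurable_lim.comp hΦ
  have hprop : ∀ᵐ x ∂mu, ∀ s ∈ S, c x ≠ c (act s x) := by
    have h2 : ∀ r : Pool.Agent.Lib.MP_45e1c4_co.Dir, ∀ᵐ x ∂mu,
        c x ≠ c (fun d => x (Pool.Agent.Lib.MP_45e1c4_co.gen r * d)) := by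
      intro r
      have h3 := Pool.Agent.Lib.MP_45e1c4_co.main_lab r
      rw [← h1] at h3
      exact ae_of_ae_map hΦ.aemeasurable h3
    filter_upwards [ae_all_iff.2 h2] with x hx s hs
    obtain ⟨r, hr⟩ := (mem_S_iff _).1 (inv_mem_S hs)
    have h4 := hx r
    rw [← hr] at h4
    exact h4
  refine ⟨c, hcm, hprop, ?_, ?_, ?_, ?_⟩
  · have h2 : ∀ g : F2, ∀ᵐ x ∂mu, ∀ s ∈ S, c (act g x) ≠ c (act s (act g x)) := fun g =>
      (act_mp g).quasiMeasurePreserving.ae hprop
    filter_upwards [ae_all_iff.2 h2] with x hx g h hgh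
    have h3 := hx g⁻¹ (g⁻¹ * h)⁻¹ (inv_mem_S ((adj_iff g h).1 hgh))
    have h4 : act (g⁻¹ * h)⁻¹ (act g⁻¹ x) = act h⁻¹ x := by
      funext d
      unfold act
      congr 1
      group
    rw [h4] at h3
    exact h3
  · intro σ x
    have hσ : ∀ g h, Pool.Agent.Lib.MP_45e1c4_co.AdjC g h ↔
        Pool.Agent.Lib.MP_45e1c4_co.AdjC (σ.toEquiv g) (σ.toEquiv h) := by
      intro g h
      rw [← adj_iff', ← adj_iff']
      exact (σ.map_adj_iff (v := g) (w := h)).symm
    funext g
    have := Pool.Agent.Lib.MP_45e1c4_co.lim_aut hσ (fun d => f (x d)) g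
    simp only [lift, act, inv_inv, Function.comp_apply, hc]
    exact this
  · intro k
    have h2 := Pool.Agent.Lib.MP_45e1c4_co.PP_lim k
    have h3 : mu.real {x | c x = k} = 1 / 3 := by
      rw [← h2]
      exact hmp.measureReal_preimage
        (Pool.Agent.Lib.MP_45e1c4_co.measurable_lim (measurableSet_singleton k)).nullMeasurableSet
    rw [← ofReal_measureReal, h3, ENNReal.ofReal_div_of_pos (by norm_num)]
    simp
  · obtain ⟨C, hC⟩ := Pool.Agent.Lib.MP_45e1c4_co.lim_ne
    have hC0 : 0 ≤ C := by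
      have := hC 0
      have h5 : (0 : ℝ) ≤ C * (99 / 100) ^ 0 := measureReal_nonneg.trans this
      simpa using h5
    refine ⟨max 1 (100 / 99 * C), fun n => ?_⟩
    cases n with
    | zero =>
      refine ⟨fun _ => 0, measurable_const, fun _ _ _ => rfl, ?_⟩
      refine measureReal_le_one.trans ?_
      simp
    | succ n =>
      refine ⟨fun x => Pool.Agent.Lib.MP_45e1c4_co.col n (fun d => f (x d)),
        (Pool.Agent.Lib.MP_45e1c4_co.measurable_col n).comp hΦ, ?_, ?_⟩
      · intro x y hxy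
        apply Pool.Agent.Lib.MP_45e1c4_co.col_local
        intro d hd
        rw [hxy d hd]
      · have hS : MeasurableSet {x | Pool.Agent.Lib.MP_45e1c4_co.col n x ≠
            Pool.Agent.Lib.MP_45e1c4_co.lim x} :=
          (measurableSet_eq_fun (Pool.Agent.Lib.MP_45e1c4_co.measurable_col n)
            Pool.Agent.Lib.MP_45e1c4_co.measurable_lim).compl
        have h2 := hmp.measureReal_preimage hS.nullMeasurableSet
        have h3 : mu.real {x | Pool.Agent.Lib.MP_45e1c4_co.col n (fun d => f (x d)) ≠ c x}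
            = Pool.Agent.Lib.MP_45e1c4_co.PP.real {x | Pool.Agent.Lib.MP_45e1c4_co.col n x ≠
              Pool.Agent.Lib.MP_45e1c4_co.lim x} := h2
        rw [h3]
        refine (hC n).trans ?_
        rw [pow_succ]
        have h4 : 100 / 99 * C ≤ max 1 (100 / 99 * C) := le_max_right _ _
        have hp : (0 : ℝ) < (99 / 100) ^ n := by positivity
        nlinarith

end Pool.Agent.Results.MP_45e1c4_co.TreeColouring
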